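import Pool.Agent.J6H9.EX.Stm
import Pool.Agent.J6H24.EU.Srt

/-!
# Project EX (helper9, MP_f6e960_lc), module EX-SUF (helper68): the order sorted by weights
-/

set_option autoImplicit false

namespace Pool.Agent.J6H68.EX

open Filter Topology Pool.Agent.J6H9.EU Pool.Agent.J6H9.EX

/-- from counting to injections -/
lemma inj_of_count (S T : Set ℕ) (h : ∀ n, (S ∩ Set.Iio n).ncard ≤ (T ∩ Set.Iio n).ncard) :
    ∃ g : ℕ → ℕ, Set.InjOn g S ∧ ∀ s ∈ S, g s ∈ T ∧ g s ≤ s := by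
  classical
  have hc : ∀ (A : Set ℕ) (n : ℕ), (A ∩ Set.Iio n).ncard = Nat.count (· ∈ A) n := by
    intro A n
    rw [Nat.count_eq_card_filter_range, ← Set.ncard_coe_finset]
    congr 1
    ext x
    simp [and_comm]
  have h' : ∀ n, Nat.count (· ∈ S) n ≤ Nat.count (· ∈ T) n := by
    intro n
    have := h n
    rwa [hc, hc] at this
  have hlt : ∀ s ∈ S, Nat.count (· ∈ S) s < Nat.count (· ∈ T) (s + 1) := by
    intro s hs
    have := h' (s + 1)
    rw [Nat.count_succ, if_pos hs] at this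
    omega
  have hval : ∀ s ∈ S, ∀ hf : ({x | x ∈ T} : Set ℕ).Finite,
      Nat.count (· ∈ S) s < hf.toFinset.card := by
    intro s hs hf
    refine (hlt s hs).trans_le ?_
    rw [Nat.count_eq_card_filter_range]
    refine Finset.card_le_card ?_
    intro x hx
    rw [Set.Finite.mem_toFinset]
    exact (Finset.mem_filter.1 hx).2
  refine ⟨fun s => Nat.nth (· ∈ T) (Nat.count (· ∈ S) s), ?_, ?_⟩
  · intro s hs s' hs' hss
    have h1 := congrArg (Nat.count (· ∈ T)) hss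
    simp only at h1
    rw [Nat.count_nth (hval s hs), Nat.count_nth (hval s' hs')] at h1
    exact Nat.count_injective hs hs' h1
  · intro s hs
    exact ⟨Nat.nth_mem _ (hval s hs), Nat.lt_succ_iff.1 (Nat.nth_lt_of_lt_count (hlt s hs))⟩

lemma st_succ (d : ℕ → ℕ) (n : ℕ) : st d (n + 1) = st d n + d n := by
  unfold st
  rw [Finset.sum_range_succ]

lemma st_mono (d : ℕ → ℕ) : Monotone (st d) := by
  apply monotone_nat_of_le_succ
  intro n
  rw [st_succ]
  omega

lemma le_st {d : ℕ → ℕ} (hd : ∀ n, 0 < d n) (n : ℕ) : n ≤ st d n := by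
  induction n with
  | zero => omega
  | succ n ih =>
    rw [st_succ]
    have := hd n
    omega

lemma mem_Dn {d : ℕ → ℕ} {n x : ℕ} : x ∈ Dn d n ↔ st d n ≤ x ∧ x < st d (n + 1) := by
  unfold Dn
  rw [Finset.mem_Ico, st_succ]

lemma cover {d : ℕ → ℕ} (hd : ∀ n, 0 < d n) (x : ℕ) : ∃ n, x ∈ Dn d n := by
  classical
  have hex : ∃ n, x < st d (n + 1) := ⟨x, lt_of_lt_of_le (Nat.lt_succ_self x) (le_st hd (x + 1))⟩
  refine ⟨Nat.find hex, mem_Dn.2 ⟨?_, Nat.find_spec hex⟩⟩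
  rcases Nat.eq_zero_or_pos (Nat.find hex) with h0 | h0
  · rw [h0]
    simp [st]
  · obtain ⟨k, hk⟩ : ∃ k, Nat.find hex = k + 1 := ⟨Nat.find hex - 1, by omega⟩
    have := Nat.find_min hex (m := k) (by omega)
    rw [hk]
    omega

lemma ge_of_mem {d : ℕ → ℕ} {n M x : ℕ} (hx : x ∈ Dn d n) (hM : st d M ≤ x) : M ≤ n := by
  by_contra hcon
  push Not at hcon
  have h1 := st_mono d (show n + 1 ≤ M from hcon)
  have h2 := (mem_Dn.1 hx).2
  omega

lemma w_small {w : ℕ → ℝ} {d : ℕ → ℕ} (hm : Meas w d) (ε : ℝ) (hε : 0 < ε) :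
    ∃ X, ∀ x, X ≤ x → w x ≤ ε := by
  obtain ⟨M, hM⟩ := hm.small ε hε
  refine ⟨st d M, fun x hx => ?_⟩
  obtain ⟨n, hn⟩ := cover hm.dpos x
  exact hM n (ge_of_mem hn hx) x hn

lemma fin_gt {w : ℕ → ℝ} {d : ℕ → ℕ} (hm : Meas w d) (ε : ℝ) (hε : 0 < ε) : {y | ε < w y}.Finite := by
  obtain ⟨X, hX⟩ := w_small hm ε hε
  refine (Set.finite_Iio X).subset fun y hy => ?_
  by_contra hcon
  rw [Set.mem_Iio, not_lt] at hcon
  exact absurd (hX y hcon) (not_le.2 hy)

lemma exists_perm {w : ℕ → ℝ} {d : ℕ → ℕ} (hm : Meas w d) :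
    ∃ φ : Equiv.Perm ℕ, ∀ x y, φ x ≤ φ y → w y ≤ w x := by
  obtain ⟨φ, hφ⟩ := Pool.Agent.J6H24.EU.Srt.main (fun x => {y | w x < w y}.ncard) (by
    rw [tendsto_atTop]
    intro K
    rw [eventually_atTop]
    have hex : ∃ ε : ℝ, 0 < ε ∧ ∀ y < K, ε < w y := by
      induction K with
      | zero => exact ⟨1, one_pos, fun y hy => absurd hy (Nat.not_lt_zero y)⟩
      | succ K ih =>
        obtain ⟨ε, hε, h⟩ := ih
        have hK := hm.pos K
        refine ⟨min ε (w K / 2), lt_min hε (by linarith), fun y hy => ?_⟩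
        rcases Nat.lt_succ_iff_lt_or_eq.1 hy with hy | rfl
        · exact lt_of_le_of_lt (min_le_left _ _) (h y hy)
        · exact lt_of_le_of_lt (min_le_right _ _) (by linarith)
    obtain ⟨ε, hε, h⟩ := hex
    obtain ⟨X, hX⟩ := w_small hm ε hε
    refine ⟨X, fun x hx => ?_⟩
    have hsub : ((Finset.range K : Finset ℕ) : Set ℕ) ⊆ {y | w x < w y} := by
      intro y hy
      rw [Finset.mem_coe, Finset.mem_range] at hy
      exact lt_of_le_of_lt (hX x hx) (h y hy)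
    have := Set.ncard_le_ncard hsub (fin_gt hm (w x) (hm.pos x))
    rwa [Set.ncard_coe_finset, Finset.card_range] at this)
  refine ⟨φ, fun x y hxy => ?_⟩
  by_contra hcon
  push Not at hcon
  have hlt : {z | w y < w z}.ncard < {z | w x < w z}.ncard := by
    refine Set.ncard_lt_ncard ?_ (fin_gt hm (w x) (hm.pos x))
    refine ⟨fun z hz => lt_trans hcon hz, fun h => ?_⟩
    have h3 : w y < w y := h hcon
    exact lt_irrefl _ h3
  exact absurd (hφ y x hlt) (not_lt.2 hxy)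

/-- **EX-SUF.** -/
theorem main : S_SUF := by
  classical
  intro w d hm hsuf
  obtain ⟨φ, hφ⟩ := exists_perm hm
  refine ⟨φ, ?_⟩
  rintro B' ⟨B, hB, rfl⟩ C' hcount
  obtain ⟨g, hg1, hg2⟩ := inj_of_count C' (φ '' B) hcount
  refine ⟨φ ⁻¹' C', ?_, Set.image_preimage_eq _ φ.surjective⟩
  -- the injection
  obtain ⟨j, hjdef⟩ : ∃ j : ℕ → ℕ, ∀ c, j c = φ.symm (g (φ c)) := ⟨_, fun _ => rfl⟩
  have hj1 : Set.InjOn j (φ ⁻¹' C') := by
    intro x hx y hy hxy
    rw [hjdef, hjdef] at hxy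
    exact φ.injective (hg1 hx hy (φ.symm.injective hxy))
  have hj2 : ∀ c ∈ φ ⁻¹' C', j c ∈ B ∧ w c ≤ w (j c) := by
    intro c hc
    have h1 := hg2 (φ c) hc
    rw [hjdef]
    refine ⟨?_, hφ _ _ ?_⟩
    · obtain ⟨b, hb, hbg⟩ := h1.1
      rw [← hbg, Equiv.symm_apply_apply]
      exact hb
    · rw [Equiv.apply_symm_apply]
      exact h1.2
  show Tendsto (fun n => ∑ x ∈ (Dn d n).filter (· ∈ φ ⁻¹' C'), w x) atTop (𝓝 0)
  have hB' : Tendsto (fun n => ∑ x ∈ (Dn d n).filter (· ∈ B), w x) atTop (𝓝 0) := hB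
  rw [Metric.tendsto_atTop] at hB' ⊢
  intro η hη
  obtain ⟨ε, hεdef⟩ : ∃ ε, ε = η / 4 := ⟨_, rfl⟩
  have hε : 0 < ε := by
    rw [hεdef]
    positivity
  obtain ⟨K, hK⟩ := hsuf ε hε
  obtain ⟨n₁, hn₁⟩ := hB' (ε / (K + 1)) (by positivity)
  obtain ⟨M, hM⟩ := hm.small (ε / (st d n₁ + 1)) (by positivity)
  refine ⟨M, fun m hmM => ?_⟩
  rw [Real.dist_eq, sub_zero, abs_of_nonneg (Finset.sum_nonneg fun i _ => (hm.pos i).le)]
  obtain ⟨N, hN, hN2⟩ := hK m
  obtain ⟨Cm, hCm⟩ : ∃ Cm, Cm = (Dn d m).filter (· ∈ φ ⁻¹' C') := ⟨_, rfl⟩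
  have hCmC : ∀ c ∈ Cm, c ∈ φ ⁻¹' C' := by
    intro c hc
    rw [hCm] at hc
    exact (Finset.mem_filter.1 hc).2
  have hCmD : ∀ c ∈ Cm, c ∈ Dn d m := by
    intro c hc
    rw [hCm] at hc
    exact (Finset.mem_filter.1 hc).1
  rw [← hCm]
  -- first part
  have hP1 : ∑ c ∈ Cm.filter (fun c => j c < st d n₁), w c ≤ ε := by
    have hcard : (Cm.filter (fun c => j c < st d n₁)).card ≤ st d n₁ := by
      refine le_trans (Finset.card_le_card_of_injOn (t := Finset.range (st d n₁)) j ?_ ?_)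
        (le_of_eq (Finset.card_range _))
      · intro c hc
        rw [Finset.mem_coe, Finset.mem_filter] at hc
        exact Finset.mem_coe.2 (Finset.mem_range.2 hc.2)
      · intro x hx y hy hxy
        rw [Finset.mem_coe, Finset.mem_filter] at hx hy
        exact hj1 (hCmC x hx.1) (hCmC y hy.1) hxy
    calc ∑ c ∈ Cm.filter (fun c => j c < st d n₁), w c ≤
          (Cm.filter (fun c => j c < st d n₁)).card • (ε / (st d n₁ + 1)) := by
          refine Finset.sum_le_card_nsmul _ _ _ ?_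
          intro c hc
          exact hM m hmM c (hCmD c (Finset.mem_filter.1 hc).1)
      _ = ((Cm.filter (fun c => j c < st d n₁)).card : ℝ) * (ε / (st d n₁ + 1)) := nsmul_eq_mul _ _
      _ ≤ (st d n₁ : ℝ) * (ε / (st d n₁ + 1)) := by
          refine mul_le_mul_of_nonneg_right ?_ (by positivity)
          exact_mod_cast hcard
      _ ≤ ε := by
          rw [mul_div_assoc', div_le_iff₀ (by positivity)]
          nlinarith
  -- second part
  have hP2 : ∑ c ∈ (Cm.filter (fun c => ¬ j c < st d n₁)).filter (fun c => ∃ n ∈ N, j c ∈ Dn d n), w c ≤ ε := by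
    obtain ⟨P, hP⟩ : ∃ P, P = (Cm.filter (fun c => ¬ j c < st d n₁)).filter
      (fun c => ∃ n ∈ N, j c ∈ Dn d n) := ⟨_, rfl⟩
    have hPm : ∀ c ∈ P, c ∈ Cm ∧ st d n₁ ≤ j c ∧ ∃ n ∈ N, j c ∈ Dn d n := by
      intro c hc
      rw [hP, Finset.mem_filter, Finset.mem_filter] at hc
      exact ⟨hc.1.1, not_lt.1 hc.1.2, hc.2⟩
    rw [← hP]
    have hNn : ∀ n ∈ N.filter (n₁ ≤ ·), ∑ x ∈ (Dn d n).filter (· ∈ B), w x ≤ ε / (K + 1) := by
      intro n hn
      have := hn₁ n (Finset.mem_filter.1 hn).2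
      rw [Real.dist_eq, sub_zero, abs_of_nonneg (Finset.sum_nonneg fun i _ => (hm.pos i).le)] at this
      exact this.le
    calc ∑ c ∈ P, w c ≤ ∑ c ∈ P, w (j c) :=
          Finset.sum_le_sum fun c hc => (hj2 c (hCmC c (hPm c hc).1)).2
      _ = ∑ y ∈ P.image j, w y := by
          rw [Finset.sum_image]
          intro x hx y hy hxy
          exact hj1 (hCmC x (hPm x hx).1) (hCmC y (hPm y hy).1) hxy
      _ ≤ ∑ y ∈ (N.filter (n₁ ≤ ·)).biUnion (fun n => (Dn d n).filter (· ∈ B)), w y := by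
          refine Finset.sum_le_sum_of_subset_of_nonneg ?_ (fun i _ _ => (hm.pos i).le)
          intro y hy
          obtain ⟨c, hc, rfl⟩ := Finset.mem_image.1 hy
          obtain ⟨hc1, hc2, n, hn, hc3⟩ := hPm c hc
          rw [Finset.mem_biUnion]
          exact ⟨n, Finset.mem_filter.2 ⟨hn, ge_of_mem hc3 hc2⟩,
            Finset.mem_filter.2 ⟨hc3, (hj2 c (hCmC c hc1)).1⟩⟩
      _ ≤ ∑ n ∈ N.filter (n₁ ≤ ·), ∑ x ∈ (Dn d n).filter (· ∈ B), w x := by
          rw [Finset.sum_biUnion]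
          intro a _ b _ hab
          show Disjoint ((Dn d a).filter (· ∈ B)) ((Dn d b).filter (· ∈ B))
          rw [Finset.disjoint_left]
          intro x hxa hxb
          have h1 := mem_Dn.1 (Finset.mem_filter.1 hxa).1
          have h2 := mem_Dn.1 (Finset.mem_filter.1 hxb).1
          have h3 := ge_of_mem (Finset.mem_filter.1 hxa).1 h2.1
          have h4 := ge_of_mem (Finset.mem_filter.1 hxb).1 h1.1
          exact hab (le_antisymm h4 h3)
      _ ≤ (N.filter (n₁ ≤ ·)).card • (ε / (K + 1)) := Finset.sum_le_card_nsmul _ _ _ hNn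
      _ = ((N.filter (n₁ ≤ ·)).card : ℝ) * (ε / (K + 1)) := nsmul_eq_mul _ _
      _ ≤ (K : ℝ) * (ε / (K + 1)) := by
          refine mul_le_mul_of_nonneg_right ?_ (by positivity)
          have : (N.filter (n₁ ≤ ·)).card ≤ K := (Finset.card_filter_le _ _).trans hN
          exact_mod_cast this
      _ ≤ ε := by
          rw [mul_div_assoc', div_le_iff₀ (by positivity)]
          nlinarith
  -- third part
  have hP3 : ∑ c ∈ (Cm.filter (fun c => ¬ j c < st d n₁)).filter (fun c => ¬ ∃ n ∈ N, j c ∈ Dn d n), w c ≤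
      ε := by
    refine hN2 _ ?_ ⟨j, ?_, ?_⟩
    · intro c hc
      rw [Finset.mem_filter, Finset.mem_filter] at hc
      exact hCmD c hc.1.1
    · intro x hx y hy hxy
      rw [Finset.mem_coe, Finset.mem_filter, Finset.mem_filter] at hx hy
      exact hj1 (hCmC x hx.1.1) (hCmC y hy.1.1) hxy
    · intro c hc
      rw [Finset.mem_filter, Finset.mem_filter] at hc
      refine ⟨fun n hn hcn => hc.2 ⟨n, hn, hcn⟩, (hj2 c (hCmC c hc.1.1)).2⟩
  have hs1 := Finset.sum_filter_add_sum_filter_not Cm (fun c => j c < st d n₁) w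
  have hs2 := Finset.sum_filter_add_sum_filter_not (Cm.filter (fun c => ¬ j c < st d n₁))
    (fun c => ∃ n ∈ N, j c ∈ Dn d n) w
  linarith

end Pool.Agent.J6H68.EX
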